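import Pool.Agent.Helper5.WD.Stmts
import Pool.Agent.Helper97.UN.DCM

set_option autoImplicit false

open Finset Pool.Agent.Helper8.UN Pool.Agent.Helper5.FV

namespace Pool.Agent.Helper5.WD

theorem st_GDCW (h1 : ST_GHSF) (h2 : ST_GCHN) (h3 : ST_GRAT) (h4 : ST_GF1) (h5 : ST_F2)
    (h6 : ST_GPOS) (h7 : ST_GRGM) : ST_GDCW := by
  classical
  obtain ⟨n1, hn1⟩ := h1
  obtain ⟨n2, hn2⟩ := h7
  obtain ⟨n3, hn3⟩ : ∃ n3 : ℕ, ∀ n ≥ n3, (7000 : ℝ) ≤ Real.log n := by
    have := Real.tendsto_log_atTop.comp (tendsto_natCast_atTop_atTop (R := ℝ))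
    have h := this.eventually_ge_atTop 7000
    rw [Filter.eventually_atTop] at h
    obtain ⟨a, ha⟩ := h
    exact ⟨a, fun n hn => ha n hn⟩
  obtain ⟨n4, hn4⟩ : ∃ n4 : ℕ, ∀ n ≥ n4, Real.log n ≤ 1 / 1000 * (n : ℝ) := by
    have h := Real.isLittleO_log_id_atTop.comp_tendsto (tendsto_natCast_atTop_atTop (R := ℝ))
    have h := h.bound (show (0 : ℝ) < 1 / 1000 by norm_num)
    rw [Filter.eventually_atTop] at h
    obtain ⟨a, ha⟩ := h
    refine ⟨a, fun n hn => ?_⟩
    have := ha n hn
    simp only [Function.comp, id, Real.norm_eq_abs, Nat.abs_cast] at this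
    exact (le_abs_self _).trans this
  refine ⟨max (max n1 n2) (max n3 n4), fun n hn D0 r m E W hR hW hm1 hm2 hPP => ?_⟩
  have e1 : n1 ≤ n := le_trans (le_trans (le_max_left _ _) (le_max_left _ _)) hn
  have e2 : n2 ≤ n := le_trans (le_trans (le_max_right _ _) (le_max_left _ _)) hn
  have e3 : n3 ≤ n := le_trans (le_trans (le_max_left _ _) (le_max_right _ _)) hn
  have e4 : n4 ≤ n := le_trans (le_trans (le_max_right _ _) (le_max_right _ _)) hn
  have hL7 := hn3 n e3
  have hLn := hn4 n e4
  set L : ℝ := Real.log n with hLdef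
  have hL0 : 0 < L := by linarith
  have hn0 : (0 : ℝ) < n := by linarith
  have hx0 : 0 < (n : ℝ) / L := by positivity
  obtain ⟨hr4, hDm, hD0m, hm4, -, hBD, -⟩ := hn2 n e2 D0 r m E hR (by linarith)
  set D : ℕ := D0 + 1 with hDdef
  have hDm' : D < m := by omega
  have hTwo := hR.two
  have hmR : (10000 : ℝ) ≤ m := by exact_mod_cast hm4
  have hDR : 1000 * (D : ℝ) ≤ m := by exact_mod_cast hDm
  obtain ⟨hPpos, -⟩ := h6 n D m m E W hTwo hBD le_rfl hDm'
  have hPposR : (0 : ℝ) < PP E W m := by exact_mod_cast hPpos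
  have hA0 : (0 : ℝ) ≤ AA E W m := Nat.cast_nonneg _
  -- theta
  set θ : ℝ := 2 / L ^ 2 with hθ
  have hθ0 : 0 ≤ θ := by positivity
  have hθL : θ * L ^ 2 = 2 := by rw [hθ]; field_simp
  have hθ1 : θ ≤ 1 := by
    rw [hθ, div_le_one (by positivity)]
    nlinarith
  -- small sets
  have hsmall : ∀ B : Finset (Fin n), B ⊆ W → (B.card : ℝ) ≤ 30 * L →
      (AA E (W \ B) m : ℝ) ≤ AA E W m / (99 / 100 * PP E W m) * PP E (W \ B) m := by
    intro B hBW hB
    have hc := h2 n D m m E W B θ hTwo hBD le_rfl hDm' hBW hθ0 hθ1 (by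
      intro W' v _ hsub hv
      have hcard : 91 / 100 * (n : ℝ) ≤ W'.card := by
        have h10 : (W \ B).card ≤ W'.card :=
          (Finset.card_le_card hsub).trans (Finset.card_le_card (Finset.erase_subset _ _))
        have h11 : (W \ B : Finset (Fin n)).card = W.card - B.card :=
          Finset.card_sdiff_of_subset hBW
        have h12 : W.card ≤ W'.card + B.card := by omega
        have h13 : (W.card : ℝ) ≤ W'.card + B.card := by exact_mod_cast h12
        linarith
      have hs := hn1 n e1 D0 r m E W' v hR (by linarith) (by linarith) hcard hv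
      obtain ⟨-, hh0, hhD, -⟩ := h3 n D m m E W' v hTwo hBD le_rfl hDm' hv
      have h14 : (n : ℝ) / L ^ 3 ≤ θ * (m - hh E W' m v) := by
        have h15 : 66 / 100 * ((n : ℝ) / L) ≤ m - hh E W' m v := by
          linarith
        calc (n : ℝ) / L ^ 3 ≤ θ * (66 / 100 * ((n : ℝ) / L)) := by
              rw [hθ]
              have : (2 / L ^ 2) * (66 / 100 * ((n : ℝ) / L)) = 132 / 100 * (n / L ^ 3) := by
                field_simp
                norm_num
              rw [this]
              have : 0 ≤ (n : ℝ) / L ^ 3 := by positivity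
              linarith
          _ ≤ _ := mul_le_mul_of_nonneg_left h15 hθ0
      linarith)
    have hpow : 99 / 100 ≤ (1 - θ) ^ B.card := by
      have hb := one_add_mul_le_pow (a := -θ) (by linarith) B.card
      have h16 : (B.card : ℝ) * θ ≤ 1 / 100 := by
        have : (B.card : ℝ) * θ ≤ 30 * L * θ := mul_le_mul_of_nonneg_right hB hθ0
        have h17 : 30 * L * θ = 60 / L := by
          rw [hθ]; field_simp; norm_num
        have h18 : 60 / L ≤ 1 / 100 := by
          rw [div_le_iff₀ hL0]; linarith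
        linarith
      have h19 : (1 + -θ) = 1 - θ := by ring
      rw [h19] at hb
      linarith
    have h20 : (AA E (W \ B) m : ℝ) * (PP E W m * (99 / 100)) ≤
        AA E W m * PP E (W \ B) m := by
      refine le_trans ?_ hc
      exact mul_le_mul_of_nonneg_left (mul_le_mul_of_nonneg_left hpow hPposR.le)
        (Nat.cast_nonneg _)
    rw [div_mul_eq_mul_div, le_div_iff₀ (by positivity)]
    linarith
  -- large sets
  have hlarge : ∀ B : Finset (Fin n), B ⊆ W → 30 * L ≤ (B.card : ℝ) →
      (AA E (W \ B) m : ℝ) ≤ AA E W m * ((1 / 5 : ℝ) ^ B.card / (n.choose B.card : ℝ)) := by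
    intro B hBW hB
    obtain ⟨-, -, hf⟩ := h4 n D m m E (W \ B) B hTwo hBD le_rfl Finset.sdiff_disjoint
    rw [Finset.sdiff_union_of_subset hBW] at hf
    have hf' : ((m : ℝ) - D) ^ B.card * AA E (W \ B) m ≤ AA E W m := by
      have : (((m - D) ^ B.card * AA E (W \ B) m : ℕ) : ℝ) ≤ (AA E W m : ℕ) := by
        exact_mod_cast hf
      push_cast [Nat.cast_sub hDm'.le] at this
      exact this
    have hc := dcm_choose n B.card L hL0 hB
    have hcle : B.card ≤ n := by
      have := Finset.card_le_univ B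
      simpa using this
    have hc0 : (0 : ℝ) < (n.choose B.card : ℝ) := by
      exact_mod_cast Nat.choose_pos hcle
    have h21 : (n.choose B.card : ℝ) ≤ (1 / 5 : ℝ) ^ B.card * ((m : ℝ) - D) ^ B.card := by
      refine hc.trans ?_
      rw [← mul_pow]
      refine pow_le_pow_left₀ (by positivity) ?_ _
      linarith
    rw [← mul_div_assoc, le_div_iff₀ hc0]
    calc (AA E (W \ B) m : ℝ) * (n.choose B.card : ℝ)
        ≤ (AA E (W \ B) m : ℝ) * ((1 / 5 : ℝ) ^ B.card * ((m : ℝ) - D) ^ B.card) :=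
          mul_le_mul_of_nonneg_left h21 (Nat.cast_nonneg _)
      _ = (((m : ℝ) - D) ^ B.card * AA E (W \ B) m) * (1 / 5 : ℝ) ^ B.card := by ring
      _ ≤ AA E W m * (1 / 5 : ℝ) ^ B.card :=
          mul_le_mul_of_nonneg_right hf' (by positivity)
  -- sum
  obtain ⟨hP, hA⟩ := h5 n m E W hTwo
  set F1 := W.powerset.filter
    (fun B => B.Nonempty ∧ Pool.Agent.Helper89.UB.Al E B) with hF1
  have hF1W : ∀ B ∈ F1, B ⊆ W := by
    intro B hB
    rw [hF1, Finset.mem_filter, Finset.mem_powerset] at hB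
    exact hB.1
  have hgeo : ∑ B ∈ F1, ((1 / 5 : ℝ) ^ B.card / (n.choose B.card : ℝ)) ≤ 1 := by
    refine le_trans ?_ (dcm_sum (n := n)
      (fun B => B.Nonempty ∧ Pool.Agent.Helper89.UB.Al E B) (fun B hB => hB.1))
    refine Finset.sum_le_sum_of_subset_of_nonneg ?_ (fun B _ _ => by positivity)
    intro B hB
    rw [hF1, Finset.mem_filter] at hB
    rw [Finset.mem_filter]
    exact ⟨Finset.mem_powerset.mpr (Finset.subset_univ _), hB.2⟩
  have hsum : (AA E W (m + 1) : ℝ) ≤
      AA E W m / (99 / 100 * PP E W m) * PP E W (m + 1) + AA E W m := by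
    rw [hA]
    push_cast
    calc ∑ B ∈ F1, (AA E (W \ B) m : ℝ) ≤
        ∑ B ∈ F1, (AA E W m / (99 / 100 * PP E W m) * PP E (W \ B) m +
          AA E W m * ((1 / 5 : ℝ) ^ B.card / (n.choose B.card : ℝ))) := by
          refine Finset.sum_le_sum (fun B hBF => ?_)
          have hBW := hF1W B hBF
          rcases le_total (B.card : ℝ) (30 * L) with hB | hB
          · have := hsmall B hBW hB
            have h22 : 0 ≤ (AA E W m : ℝ) * ((1 / 5 : ℝ) ^ B.card / (n.choose B.card : ℝ)) := by
              positivity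
            linarith
          · have := hlarge B hBW hB
            have h22 : 0 ≤ (AA E W m : ℝ) / (99 / 100 * PP E W m) * PP E (W \ B) m := by
              positivity
            linarith
      _ = AA E W m / (99 / 100 * PP E W m) * ∑ B ∈ F1, (PP E (W \ B) m : ℝ) +
          AA E W m * ∑ B ∈ F1, ((1 / 5 : ℝ) ^ B.card / (n.choose B.card : ℝ)) := by
          rw [Finset.sum_add_distrib, Finset.mul_sum, Finset.mul_sum]
      _ ≤ AA E W m / (99 / 100 * PP E W m) * PP E W (m + 1) + AA E W m * 1 := by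
          refine add_le_add (mul_le_mul_of_nonneg_left ?_ (by positivity))
            (mul_le_mul_of_nonneg_left hgeo hA0)
          rw [hP]
          push_cast
          refine Finset.sum_le_sum_of_subset_of_nonneg ?_ (fun B _ _ => Nat.cast_nonneg _)
          intro B hB
          rw [hF1, Finset.mem_filter] at hB
          rw [Finset.mem_filter]
          exact ⟨hB.1, hB.2.2⟩
      _ = _ := by ring
  have hfin : (AA E W (m + 1) : ℝ) ≤ (m + 1) * AA E W m := by
    have h23 : AA E W m / (99 / 100 * PP E W m) * PP E W (m + 1) ≤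
        (AA E W m : ℝ) * (((m : ℝ) + 1) * (2000 / 2079)) := by
      rw [div_mul_eq_mul_div, div_le_iff₀ (by positivity)]
      have h24 : (PP E W (m + 1) : ℝ) ≤ 100 / 105 * ((m + 1) * PP E W m) := by linarith
      have h25 : (AA E W m : ℝ) * PP E W (m + 1) ≤
          AA E W m * (100 / 105 * ((m + 1) * PP E W m)) := mul_le_mul_of_nonneg_left h24 hA0
      refine h25.trans (le_of_eq ?_)
      ring
    have h26 : (AA E W m : ℝ) * (((m : ℝ) + 1) * (2000 / 2079)) + AA E W m ≤
        (m + 1) * AA E W m := by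
      have : (AA E W m : ℝ) * (((m : ℝ) + 1) * (2000 / 2079) + 1) ≤
          AA E W m * (m + 1) := mul_le_mul_of_nonneg_left (by linarith) hA0
      linarith
    linarith
  exact_mod_cast hfin

end Pool.Agent.Helper5.WD
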