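import Pool.Agent.Helper5.WD.Stmts

set_option autoImplicit false

open Finset Pool.Agent.Helper8.UN Pool.Agent.Helper5.FV

namespace Pool.Agent.Helper5.WD

theorem st_XREG : ST_XREG := by
  intro n D0 r E W0 h
  have hW0 : ∀ v ∈ W0, ∀ e ∈ E.filter (fun e => e ⊆ univ \ W0), v ∉ e := by
    intro v hv e he hve
    have h1 := (Finset.mem_filter.1 he).2 hve
    rw [Finset.mem_sdiff] at h1
    exact h1.2 hv
  refine ⟨?_, ?_, ?_, h.d0, h.r0⟩
  · intro e he
    exact h.two e (Finset.mem_filter.1 he).1
  · intro v
    by_cases hv : v ∈ W0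
    · have h0 : ((E.filter (fun e => e ⊆ univ \ W0)).filter (fun e => v ∈ e ∧ e.card < 4)) = ∅ := by
        rw [Finset.filter_eq_empty_iff]
        intro e he hve
        exact hW0 v hv e he hve.1
      rw [h0]
      simp
    · refine le_trans (Finset.card_le_card ?_) (h.deg v hv)
      intro e he
      rw [Finset.mem_filter, Finset.mem_filter] at he
      exact Finset.mem_filter.2 ⟨he.1.1, he.2.1, Or.inl he.2.2⟩
  · intro v
    by_cases hv : v ∈ W0
    · have h0 : ((E.filter (fun e => e ⊆ univ \ W0)).filter
          (fun e => v ∈ e ∧ 3 ≤ e.card ∧ e.card < r)) = ∅ := by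
        rw [Finset.filter_eq_empty_iff]
        intro e he hve
        exact hW0 v hv e he hve.1
      unfold ws
      rw [h0, Finset.sum_empty]
      norm_num
    · exact h.wt v hv

end Pool.Agent.Helper5.WD
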